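import Pool.Agent.MVO.StmtsG

/-!
# Squad MVO, row REN: the simple letters may be assumed to be `2, …, k+1`
-/

namespace Pool.Agent.MVO.H38

open Pool.Agent.Helper14_MV Pool.Agent.Helper2_MV

/-- a permutation of `ℕ` with prescribed values on a list without repetitions -/
theorem ren_perm : ∀ (S T : List ℕ), S.Nodup → T.Nodup → S.length = T.length →
    ∃ π : Equiv.Perm ℕ, S.map π = T := by
  intro S
  induction S with
  | nil =>
    intro T _ _ h
    have h0 : T = [] := List.length_eq_zero_iff.1 (by simpa using h.symm)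
    exact ⟨Equiv.refl ℕ, by rw [h0]; rfl⟩
  | cons s S ih =>
    intro T hS hT h
    cases T with
    | nil => simp at h
    | cons t T =>
      obtain ⟨hs, hS'⟩ := List.nodup_cons.1 hS
      obtain ⟨ht, hT'⟩ := List.nodup_cons.1 hT
      obtain ⟨π, hπ⟩ := ih T hS' hT' (by simpa using h)
      refine ⟨π.trans (Equiv.swap (π s) t), ?_⟩
      rw [List.map_cons]
      congr 1
      · simp
      · rw [← hπ]
        refine List.map_congr_left fun c hc => ?_
        rw [Equiv.trans_apply]
        refine Equiv.swap_apply_of_ne_of_ne ?_ ?_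
        · intro h1
          exact hs (by rw [← π.injective h1]; exact hc)
        · intro h1
          exact ht (by rw [← h1, ← hπ]; exact List.mem_map_of_mem hc)

theorem ren : RenStmt := by
  intro u
  set S : List ℕ := u.filter (fun c => decide (u.count c = 1)) with hS
  have hmem : ∀ c, c ∈ S ↔ c ∈ u ∧ u.count c = 1 := fun c => by
    rw [hS, List.mem_filter, decide_eq_true_iff]
  have hnd : S.Nodup := by
    rw [List.nodup_iff_count_le_one]
    intro c
    by_cases hc : c ∈ S
    · have h1 : S.count c ≤ u.count c := List.Sublist.count_le c List.filter_sublist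
      have h2 := ((hmem c).1 hc).2
      omega
    · rw [List.count_eq_zero_of_not_mem hc]
      exact Nat.zero_le 1
  obtain ⟨π, hπ⟩ := ren_perm S (seps S.length) hnd (nodup_seps _) (by unfold seps; simp)
  have hsep : ∀ c, c ∈ S ↔ 2 ≤ π c ∧ π c ≤ S.length + 1 := by
    intro c
    rw [← mem_seps, ← hπ]
    constructor
    · exact fun h => List.mem_map_of_mem h
    · intro h
      obtain ⟨d, hd, he⟩ := List.mem_map.1 h
      rw [← π.injective he]
      exact hd
  have hfil : (u.map π).filter (fun c => decide (2 ≤ c ∧ c ≤ S.length + 1)) = seps S.length := by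
    rw [List.filter_map, ← hπ]
    congr 1
    rw [hS]
    refine List.filter_congr fun c hc => ?_
    rw [Function.comp_apply, decide_eq_decide, ← hS, ← hsep c, hmem c]
    exact ⟨fun h => h.2, fun h => ⟨hc, h⟩⟩
  obtain ⟨B, hB, hu⟩ := dec hfil
  refine ⟨S.length, π, B, hu, fun j _ c hc => hB j c hc, fun j hj c hc => ?_⟩
  rw [← count_asm (hB j c hc), ← hu]
  have h1 : c ∈ u.map π := by
    rw [hu, mem_asm]
    exact Or.inr ⟨j, hj, hc⟩
  obtain ⟨d, hd, rfl⟩ := List.mem_map.1 h1
  rw [List.count_map_of_injective u π π.injective]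
  have h2 : 0 < u.count d := List.count_pos_iff.2 hd
  have h3 : u.count d ≠ 1 := fun h => hB j _ hc ((hsep d).1 ((hmem d).2 ⟨hd, h⟩))
  omega

end Pool.Agent.MVO.H38
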