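import Pool.Agent.MVO.StmtsD
import Pool.Agent.Helper49_MVO.NEA

/-!
Row NEC of squad MVO: necessity for class c1.
-/

namespace Pool.Agent.MVO.H38

open Pool.Agent.Helper14_MV Pool.Agent.Helper2_MV Pool.Agent.MVO

theorem nec (hND5 : Nd5Stmt) (hGAC : GacStmt) (hRGC : RgcStmt) : NecStmt := by
  intro β h3 hiso hcl hmod
  have hc : Cent β := H49.cent_of h3 hmod
  refine ⟨hc, ?_⟩
  rcases hND5 β ⟨h3, hiso, hcl.cc, hmod, hc, (hGAC β hcl).to2, hRGC β hcl⟩ with h | h | h | h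
  · refine Or.inl ⟨h.1, ?_⟩
    rcases h.2 with h' | h'
    · exact Or.inl h'
    · exact Or.inr h'.2
  · exact Or.inr (Or.inl h)
  · exact Or.inr (Or.inr (Or.inl h))
  · exact Or.inr (Or.inr (Or.inr h))

end Pool.Agent.MVO.H38
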