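import Pool.Agent.MVO.StmtsV
import Pool.Agent.Helper10_MVO.RGC

/-!
Row RGV of squad MVO: rigidity of the two letter words in class Va (adaptation of row RGC by
helper10).
-/

namespace Pool.Agent.MVO.H38

open Pool.Agent.Helper14_MV Pool.Agent.Helper2_MV Pool.Agent.MVO
open Pool.Agent.MVO.H10 (nn DD gw_eq gdata upd_eq)

theorem flipV (hExv : ExvStmt) {β : FIC} (hβ : MVD.Ve β) {k : ℕ} {a b : ℕ → ℕ}
    (ha : 2 ≤ deg k a) (hb : 2 ≤ deg k b) {i : ℕ} (hi : i ≤ k) (hV : ¬ VR k a b i)
    (e : ℕ → Bool) (v : Bool) :
    RR β (w2 k a b e) (w2 k a b (Function.update e i v)) := by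
  have key : ∀ e : ℕ → Bool, e i = false →
      RR β (w2 k a b e) (w2 k a b (Function.update e i true)) := by
    intro e he
    have h1 := hExv β hβ k [0, 1] (nn a b) (DD e) (gdata k a b e ha hb) i hi [] [] 0 1
      (by unfold DD; rw [he]; rfl) hV
    rw [upd_eq, gw_eq, gw_eq] at h1
    exact h1
  by_cases h : e i = v
  · rw [← h, Function.update_eq_self]
    exact RR.refl _
  · cases v with
    | true =>
      exact key e (by simpa using h)
    | false =>
      have h2 : e i = true := by simpa using h
      have h3 := key (Function.update e i false) (by simp)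
      rw [Function.update_idem, ← h2, Function.update_eq_self] at h3
      exact h3.symm

theorem rgv (hExv : ExvStmt) : RgvStmt := by
  intro β hβ k a b ha hb
  have main : ∀ i, (∀ j ≤ k, j ≠ i → ¬ VR k a b j) →
      ∀ e e' : ℕ → Bool, e i = e' i → RR β (w2 k a b e) (w2 k a b e') := by
    intro i hi e e' hee
    have step : ∀ s ≤ k + 1, RR β (w2 k a b e) (w2 k a b (fun j => if j < s then e' j else e j)) := by
      intro s
      induction s with
      | zero =>
        intro _
        have e1 : (fun j => if j < 0 then e' j else e j) = e := by
          funext j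
          rw [if_neg (by omega)]
        rw [e1]
        exact RR.refl _
      | succ s ih =>
        intro hs
        have h1 := ih (by omega)
        have e1 : (fun j => if j < s + 1 then e' j else e j) =
            Function.update (fun j => if j < s then e' j else e j) s (e' s) := by
          funext j
          by_cases h : j = s
          · subst h
            rw [Function.update_self, if_pos (by omega)]
          · rw [Function.update_of_ne h]
            by_cases h2 : j < s
            · rw [if_pos h2, if_pos (by omega)]
            · rw [if_neg h2, if_neg (by omega)]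
        rw [e1]
        by_cases hsi : s = i
        · subst hsi
          have e2 : (fun j => if j < s then e' j else e j) s = e' s := by
            beta_reduce
            rw [if_neg (by omega), hee]
          rw [← e2, Function.update_eq_self]
          exact h1
        · exact β.trans h1 (flipV hExv hβ ha hb (by omega) (hi s (by omega) hsi) _ _)
    have h4 := step (k + 1) (le_refl _)
    have e3 : w2 k a b (fun j => if j < k + 1 then e' j else e j) = w2 k a b e' := by
      unfold w2
      apply asm_congr
      intro j hj
      beta_reduce
      rw [if_pos (by omega)]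
    rwa [e3] at h4
  by_cases hr : ∃ r ≤ k, VR k a b r
  · obtain ⟨r, hrk, hr⟩ := hr
    refine ⟨r, main r ?_⟩
    intro j hj hjr hV
    have h0 := hr.1 j hj hjr
    have h1 := hV.2.1
    have h2 := hV.2.2.1
    omega
  · refine ⟨0, main 0 ?_⟩
    intro j hj _ h
    exact hr ⟨j, hj, h⟩

end Pool.Agent.MVO.H38
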