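import Pool.Agent.MVO.StmtsC
import Pool.Agent.Helper5_MVO.TAD

/-!
Row TCD of squad MVO: tightness of class c1 over `O4`.
-/

namespace Pool.Agent.MVO.H38

open Pool.Agent.Helper14_MV Pool.Agent.Helper2_MV Pool.Agent.MVO
open Pool.Agent.MVO.H5 (mem_sp mem_par sqr deg_sqr par_sqr deg_eq_par deg_sg card_sp_le
  eq_of_deg_two)

/-- class c1 is inherited by larger congruences -/
theorem clC1_mono {β ρ : FIC} (h : β ≤ ρ) (hC : ClC1 β) : ClC1 ρ := by
  have hle : ∀ l l' : List ℕ, RR β l l' → RR ρ l l' := fun l l' h' => h _ _ h'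
  refine ⟨⟨hle _ _ hC.cc.1, ?_, ?_⟩, hle _ _ hC.A⟩
  · intro p q c r x y hm
    exact hle _ _ (hC.cc.2.1 p q c r x y hm)
  · intro p q c r x y hm
    exact hle _ _ (hC.cc.2.2 p q c r x y hm)

theorem par_card_le (k : ℕ) (a : ℕ → ℕ) : (par k a).card ≤ deg k a := by
  have := deg_eq_par k a
  omega

theorem tcd (hODA : OdaStmt) (hODR : OdrStmt) (hFCC : FccStmt) (hTC2 : Tc2Stmt) : TcdStmt := by
  intro β ρ hβρ hCρ h4 k a a' hda hdd hL
  by_cases hβ : L1 β k a a'
  · exact Or.inl hβ
  right
  intro b e hdb i hi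
  have hle : ∀ l l' : List ℕ, RR β l l' → RR ρ l l' := fun l l' h => hβρ _ _ h
  have h4ρ : O4 (FC.ofFIC ρ) := ⟨hle _ _ h4.1, hle _ _ h4.2⟩
  suffices hBt : Bt ρ k a b i from hBt e
  by_cases hd3 : 3 ≤ deg k a
  · obtain ⟨f0, f2, -, -, -, -⟩ := hFCC ρ hCρ
    -- a square in any block
    have hT : ∀ p ≤ k, ∃ c : ℕ → ℕ, L1 ρ k a c ∧ 2 ≤ c p ∧ deg k c = deg k a := by
      intro p hp
      by_cases hpar : (par k a).card = deg k a
      · have hne : par k a ≠ par k a' := fun h => hβ (hODA (FC.ofFIC β) k a a' h4 hd3 hdd h)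
        have hEP := hODR (FC.ofFIC ρ) k a a' h4ρ hd3 hdd hL hne
        refine ⟨sg p (deg k a), ?_, ?_, deg_sg _ hp⟩
        · refine hEP k a (sg p (deg k a)) rfl (deg_sg _ hp) (le_max_left _ _) ?_
          have h1 := par_card_le k (sg p (deg k a))
          rw [deg_sg _ hp] at h1
          exact le_trans h1 (le_trans (le_of_eq hpar.symm) (le_max_left _ _))
        · simp only [sg, if_true]
          omega
      · have hh : 1 ≤ ∑ j ∈ Finset.range (k + 1), a j / 2 := by
          have := deg_eq_par k a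
          omega
        refine ⟨sqr k a p, hODA (FC.ofFIC ρ) k a (sqr k a p) h4ρ hd3 (deg_sqr a hp).symm
          (par_sqr a p).symm, ?_, deg_sqr a hp⟩
        unfold sqr
        simp only [if_true]
        omega
    by_cases hq : ∃ q ≤ k, q ≠ i ∧ b q ≠ 0
    · obtain ⟨q, hqk, hqi, hbq⟩ := hq
      obtain ⟨c, hc, hcq, hdc⟩ := hT q hqk
      refine f2 k a c b i hc (f0 k c b i (by omega) hdb hi ?_ ?_)
      · rintro ⟨-, h2, -⟩
        rcases h2 q hqk hqi with h | h <;> omega
      · rintro ⟨-, h2, -⟩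
        rcases h2 q hqk hqi with h | h <;> omega
    · have hb0 : ∀ j ≤ k, j ≠ i → b j = 0 := by
        intro j hj hji
        by_contra h
        exact hq ⟨j, hj, hji, h⟩
      have hbi : 2 ≤ b i := by
        have h1 : deg k b = b i := by
          unfold deg
          rw [Finset.sum_eq_single i]
          · intro j hj hji
            exact hb0 j (by have := Finset.mem_range.1 hj; omega) hji
          · intro h
            exact absurd (Finset.mem_range.2 (by omega)) h
        omega
      obtain ⟨c, hc, hci, hdc⟩ := hT i hi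
      refine f2 k a c b i hc (f0 k c b i (by omega) hdb hi ?_ ?_)
      · rintro ⟨-, -, -, -, h | h⟩ <;> omega
      · rintro ⟨-, -, h, -⟩
        omega
  · have hd2 : deg k a = 2 := by omega
    have hd2' : deg k a' = 2 := by omega
    have hne : sp k a ≠ sp k a' := by
      intro h
      apply hβ
      have h1 := eq_of_deg_two hd2 hd2' h
      have h2 := eq_of_deg_two hd2' hd2 h.symm
      exact (FC.ofFIC β).ext (a := a) (b := a) (fun _ _ => rfl)
        (fun j hj => by have := h1 j hj; have := h2 j hj; omega) ((FC.ofFIC β).refl k a)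
    have hca : (sp k a).card ≤ 2 := by rw [← hd2]; exact card_sp_le k a
    have hca' : (sp k a').card ≤ 2 := by rw [← hd2']; exact card_sp_le k a'
    exact hTC2 ρ hCρ k a a' b i (Or.inr hd2) hda hdd hdb hi hL hne hca hca'

end Pool.Agent.MVO.H38
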